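import Pool.Agent.Helper66.PD.Stmts

set_option autoImplicit false

namespace Pool.Agent.Helper66.PD

/-- the type of an active element -/
def bcd_f {k n : ℕ} (c : Fin k → Fin n) : U k n → Bool ⊕ (Bool × Fin k × Bool)
  | .X _ => Sum.inl true
  | .Y _ => Sum.inl false
  | .R j b => Sum.inr (true, j, decide ((c j : ℕ) = b j))
  | .L j b => Sum.inr (false, j, decide ((c j : ℕ) = b j))

theorem bcd_eq {k n : ℕ} (c a b : Fin k → Fin n) (j : Fin k) (hac : ag j c a) (hbc : ag j c b)
    (ha : ∀ i, i < j → (a i : ℕ) = 0) (hb : ∀ i, i < j → (b i : ℕ) = 0)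
    (hj : (a j : ℕ) = b j) : a = b := by
  funext i
  rcases lt_trichotomy i j with hi | hi | hi
  · exact Fin.ext ((ha i hi).trans (hb i hi).symm)
  · rw [hi]; exact Fin.ext hj
  · exact (hac i hi).symm.trans (hbc i hi)

theorem bcd_inj {k n : ℕ} (c : Fin k → Fin n) (u v : U k n) (hu : u.Norm) (hv : v.Norm)
    (h1 : Act c u) (h2 : Act c v) (h : bcd_f c u = bcd_f c v) : u = v := by
  cases u with
  | X a =>
    cases v with
    | X b =>
      have e1 : a = c := h1
      have e2 : b = c := h2
      rw [e1, e2]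
    | Y b => simp [bcd_f] at h
    | R j b => simp [bcd_f] at h
    | L j b => simp [bcd_f] at h
  | Y a =>
    cases v with
    | X b => simp [bcd_f] at h
    | Y b =>
      have e1 : a = c := h1
      have e2 : b = c := h2
      rw [e1, e2]
    | R j b => simp [bcd_f] at h
    | L j b => simp [bcd_f] at h
  | R j a =>
    cases v with
    | X b => simp [bcd_f] at h
    | Y b => simp [bcd_f] at h
    | R j' b =>
      simp only [bcd_f, Sum.inr.injEq, Prod.mk.injEq, true_and] at h
      obtain ⟨rfl, h3⟩ := h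
      have h3' : ((c j : ℕ) = a j ↔ (c j : ℕ) = b j) := by simpa using h3
      obtain ⟨g1, g2⟩ := h1
      obtain ⟨g3, g4⟩ := h2
      have : a = b := bcd_eq c a b j g1 g3 hu hv (by omega)
      rw [this]
    | L j' b => simp [bcd_f] at h
  | L j a =>
    cases v with
    | X b => simp [bcd_f] at h
    | Y b => simp [bcd_f] at h
    | R j' b => simp [bcd_f] at h
    | L j' b =>
      simp only [bcd_f, Sum.inr.injEq, Prod.mk.injEq, true_and] at h
      obtain ⟨rfl, h3⟩ := h
      have h3' : ((c j : ℕ) = a j ↔ (c j : ℕ) = b j) := by simpa using h3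
      obtain ⟨g1, g2⟩ := h1
      obtain ⟨g3, g4⟩ := h2
      have : a = b := bcd_eq c a b j g1 g3 hu hv (by omega)
      rw [this]

theorem st_BCD : ST_BCD := by
  intro k n c s hs
  have h := Finset.card_le_card_of_injOn (s := s)
    (t := (Finset.univ : Finset (Bool ⊕ (Bool × Fin k × Bool))))
    (fun u : Q k n => bcd_f c u.1) (fun _ _ => Finset.mem_coe.2 (Finset.mem_univ _))
    (fun u hu v hv he => Subtype.ext
      (bcd_inj c u.1 v.1 u.2 v.2 (hs u (Finset.mem_coe.1 hu)) (hs v (Finset.mem_coe.1 hv)) he))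
  have h2 : (Finset.univ : Finset (Bool ⊕ (Bool × Fin k × Bool))).card = 4 * k + 2 := by
    simp only [Finset.card_univ, Fintype.card_sum, Fintype.card_prod, Fintype.card_bool,
      Fintype.card_fin]
    omega
  omega

end Pool.Agent.Helper66.PD
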